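import Pool.Agent.Lib_helper27.GC7.Link
import Pool.Agent.Lib_helper5.TC.Main

/-!
# The maximum is attained at a corner path
-/

set_option autoImplicit false

namespace Pool.Agent.Lib_helper27.GC7

open Finset
open Pool.Agent.Lib_helper5.TC
open Pool.Agent.Lib_helper36.GC7 (up Free Chain Full W)

variable {m n : ℕ} {p : Fin (m + n + 1) → Cell m n}

/-- every path: the hypothesis of `bound` -/
theorem link_bound (hp : IsPath p) (i : ℕ) (y : ℕ → ℕ) (hi : i ≤ m) (hy : Chain m n y) :
    (G p i y ≤ (if i = m ∧ Full m n y then 1 else 0) +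
        ∑ r ∈ range (m + 1), if Free n y r then G p i (up y r) else 0) ∨
      (i < m ∧ y (i + 1) = y i ∧
        G p i y ≤ (∑ r ∈ range (m + 1), if r ≠ i ∧ Free n y r then G p i (up y r) else 0) +
          G p (i + 1) y) := by
  by_cases h : ∃ k, p k = cl m n i (y i)
  · obtain ⟨k, hk⟩ := h
    induction k using Fin.cases with
    | zero =>
      obtain ⟨h1, h2, h3⟩ := G_end hp hi hy hk
      left
      rw [h1, if_pos ⟨h2, h3⟩]
      exact Nat.le_add_right _ _
    | succ k =>
      rcases (St_lam hi hy hk).next hp with h1 | h1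
      · have h2 := G_down hp hi hy hk h1.1 h1.2
        have h3 : i < m := by
          have := rw_le (p k.castSucc)
          omega
        by_cases h4 : y (i + 1) = y i
        · right
          rw [if_pos h4] at h2
          exact ⟨h3, h4, h2.le⟩
        · left
          rw [if_neg h4, Nat.add_zero] at h2
          rw [h2]
          refine le_trans (Finset.sum_le_sum fun r _ => ?_) (Nat.le_add_left _ _)
          by_cases h5 : r ≠ i ∧ Free n y r
          · rw [if_pos h5, if_pos h5.2]
          · rw [if_neg h5]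
            exact Nat.zero_le _
      · left
        rw [G_right hp hi hy hk h1.1 h1.2]
        exact Nat.le_add_left _ _
  · left
    rw [G_neg h]
    exact Nat.zero_le _

/-- the cells of the corner path -/
theorem corner_mem (hp : IsPath p) (hc : ∃ k, p k = (Fin.last m, 0)) {i c : ℕ} (hi : i ≤ m)
    (hcn : c ≤ n) (h : i = 0 ∨ c = n) : ∃ k, p k = cl m n i c := by
  obtain ⟨k₀, hk₀⟩ := hc
  have e1 : rw' (p k₀) = 0 := by
    rw [hk₀]
    show m - m = 0
    omega
  have e2 : cw (p k₀) = n := by
    rw [hk₀]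
    show n - 0 = n
    omega
  have e3 := rc_sum hp k₀
  have hb : m + n - (i + c) < m + n + 1 := by omega
  refine ⟨⟨m + n - (i + c), hb⟩, ?_⟩
  have e4 := rc_sum hp ⟨m + n - (i + c), hb⟩
  have e5 : (⟨m + n - (i + c), hb⟩ : Fin (m + n + 1)).val = m + n - (i + c) := rfl
  rw [e5] at e4
  rcases h with h | h
  · have e6 : k₀ ≤ ⟨m + n - (i + c), hb⟩ := by
      rw [Fin.le_def]
      show k₀.val ≤ m + n - (i + c)
      omega
    have e7 := rc_mono hp e6
    refine ext_rc ?_ ?_
    · rw [rw_cl hi]
      omega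
    · rw [cw_cl hcn]
      omega
  · have e6 : (⟨m + n - (i + c), hb⟩ : Fin (m + n + 1)) ≤ k₀ := by
      rw [Fin.le_def]
      show m + n - (i + c) ≤ k₀.val
      omega
    have e7 := rc_mono hp e6
    have e8 := cw_le (p ⟨m + n - (i + c), hb⟩)
    refine ext_rc ?_ ?_
    · rw [rw_cl hi]
      omega
    · rw [cw_cl hcn]
      omega

/-- the corner path: the hypothesis of `corner` -/
theorem link_corner (hp : IsPath p) (hc : ∃ k, p k = (Fin.last m, 0)) (i : ℕ) (y : ℕ → ℕ)
    (hi : i ≤ m) (hy : Chain m n y) (hs : i = 0 ∨ ∀ r, r ≤ i → y r = n) :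
    (if i = m ∧ Full m n y then 1 else 0) +
        (∑ r ∈ range (m + 1), if Free n y r then G p i (up y r) else 0) +
        (if i < m ∧ y i = n ∧ y (i + 1) = n then G p (i + 1) y else 0) ≤ G p i y := by
  have hyi := hy.1 i hi
  have hs' : i = 0 ∨ y i = n := by
    rcases hs with h | h
    · exact Or.inl h
    · exact Or.inr (h i le_rfl)
  obtain ⟨k, hk⟩ := corner_mem hp hc hi hyi hs'
  induction k using Fin.cases with
  | zero =>
    obtain ⟨h1, h2, h3⟩ := G_end hp hi hy hk
    have h4 : (∑ r ∈ range (m + 1), if Free n y r then G p i (up y r) else 0) = 0 := by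
      refine Finset.sum_eq_zero fun r hr => ?_
      rw [mem_range] at hr
      rw [if_neg]
      intro h5
      have h6 := h5.1
      rw [h3 r hr] at h6
      omega
    rw [h1, if_pos ⟨h2, h3⟩, h4, if_neg (by omega)]
  | succ k =>
    have hn := (St_lam hi hy hk).next hp
    have e3 := rc_sum hp k.castSucc
    have hnot : ¬ (i = m ∧ Full m n y) := by
      rintro ⟨h1, h2⟩
      have h3 := rc_sum hp k.succ
      rw [hk, rw_cl hi, cw_cl hyi, h2 i (by omega), h1, Fin.val_succ] at h3
      omega
    rw [if_neg hnot, Nat.zero_add]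
    by_cases hlt : y i < n
    · have h0 : i = 0 := by omega
      obtain ⟨k', hk'⟩ := corner_mem hp hc (i := i) (c := y i + 1) hi hlt (Or.inl h0)
      have e4 := rc_sum hp k'
      rw [hk', rw_cl hi, cw_cl hlt] at e4
      have e5 : k' = k.castSucc := by
        refine Fin.ext ?_
        omega
      rw [e5] at hk'
      rw [G_right hp hi hy hk (by rw [hk', rw_cl hi]) (by rw [hk', cw_cl hlt])]
      rw [if_neg (by omega), Nat.add_zero]
    · have h0 : y i = n := by omega
      have h5 : rw' (p k.castSucc) = i + 1 ∧ cw (p k.castSucc) = y i := by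
        have := cw_le (p k.castSucc)
        omega
      have h6 : i < m := by
        have := rw_le (p k.castSucc)
        omega
      rw [G_down hp hi hy hk h5.1 h5.2]
      refine Nat.add_le_add (Finset.sum_le_sum fun r _ => ?_) ?_
      · by_cases h7 : Free n y r
        · have h8 : r ≠ i := by
            intro h9
            have h10 := h7.1
            rw [h9] at h10
            exact hlt h10
          rw [if_pos h7, if_pos ⟨h8, h7⟩]
        · rw [if_neg h7]
          exact Nat.zero_le _
      · by_cases h7 : i < m ∧ y i = n ∧ y (i + 1) = n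
        · rw [if_pos h7, if_pos (by omega)]
        · rw [if_neg h7]
          exact Nat.zero_le _

theorem rel_irrefl (p : Fin (m + n + 1) → Cell m n) (a : Cell m n) : ¬ rel p a a := by
  rintro (h | ⟨k, _, _, h⟩)
  · rw [step_iff] at h
    omega
  · exact h rfl

/-- the comparisons which a tableau has to satisfy -/
theorem syt_iff (hp : IsPath p) (T : Cell m n ≃ Fin ((m + 1) * (n + 1))) :
    (IsSYT T ∧ Produces T p) ↔ ∀ a b, rel p a b → T a < T b := by
  constructor
  · rintro ⟨h1, h2⟩ a b (h | ⟨k, h3, h4, h5⟩)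
    · obtain ⟨a1, a2⟩ := a
      obtain ⟨b1, b2⟩ := b
      rcases h with ⟨h6, h7⟩ | ⟨h6, h7⟩
      · have h8 : a2 = b2 := Fin.ext h7.symm
        rw [h8]
        refine h1.1 a1 b1 b2 ?_
        have h9 : b1.val = a1.val + 1 := h6
        rw [Fin.lt_def]
        omega
      · have h8 : a1 = b1 := Fin.ext h6.symm
        rw [h8]
        refine h1.2 b1 a2 b2 ?_
        have h9 : b2.val = a2.val + 1 := h7
        rw [Fin.lt_def]
        omega
    · have h6 := (h2.2 k).2 a h4
      rw [← h3] at h6
      exact lt_of_le_of_ne h6 fun h7 => h5 (T.injective h7)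
  · intro h
    have hs : ∀ a b, Step a b → T a < T b := fun a b h' => h a b (Or.inl h')
    refine ⟨⟨fun i i' j hi => ?_, fun i j j' hj => ?_⟩, hp.2.1, fun k => ⟨hp.2.2 k, fun u hu => ?_⟩⟩
    · have hm : StrictMono fun i : Fin (m + 1) => T (i, j) := by
        rw [Fin.strictMono_iff_lt_succ]
        intro k
        refine hs _ _ (Or.inl ⟨?_, rfl⟩)
        show k.succ.val = k.castSucc.val + 1
        rw [Fin.val_succ, Fin.val_castSucc]
      exact hm hi
    · have hm : StrictMono fun j : Fin (n + 1) => T (i, j) := by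
        rw [Fin.strictMono_iff_lt_succ]
        intro k
        refine hs _ _ (Or.inr ⟨rfl, ?_⟩)
        show k.succ.val = k.castSucc.val + 1
        rw [Fin.val_succ, Fin.val_castSucc]
      exact hm hj
    · by_cases h1 : u = p k.castSucc
      · rw [h1]
      · exact (h _ _ (Or.inr ⟨k, rfl, hu, h1⟩)).le

theorem N_eq (hp : IsPath p) : N p = ct p univ := by
  classical
  have e1 : (univ : Finset (Cell m n)).card = (m + 1) * (n + 1) := by
    rw [Finset.card_univ, Fintype.card_prod, Fintype.card_fin, Fintype.card_fin]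
  show Nat.card _ = cnt (rel p) (univ : Finset (Cell m n)).card univ
  rw [e1, ← card_le (rel p) (rel_irrefl p)]
  exact Nat.card_congr (Equiv.subtypeEquivRight fun T => syt_iff hp T)

/-- the largest entry is in the last cell -/
theorem ct_univ (p : Fin (m + n + 1) → Cell m n) :
    ct p univ = ct p (SS m n (lam 0 fun _ => 0)) := by
  have e1 : (univ : Finset (Cell m n)) = SS m n fun _ => 0 := by
    ext a
    rw [mem_SS]
    exact ⟨fun _ => Nat.zero_le _, fun _ => mem_univ _⟩
  have e2 : (lam 0 fun _ => 0) = up (fun _ => 0) 0 := by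
    funext r
    by_cases h : r = 0
    · rw [h, up_same, lam_le _ le_rfl]
    · rw [up_of_ne _ h, lam_gt _ (Nat.pos_of_ne_zero h)]
  have e3 : ∀ b : Cell m n, ¬ Step (cl m n 0 0) b := by
    intro b h
    rw [step_iff, rw_cl (Nat.zero_le m), cw_cl (Nat.zero_le n)] at h
    omega
  rw [e1, e2, GC7.ct_eq (p := p) (L := fun _ => 0) ⟨cl m n 0 0, mem_SS.2 (Nat.zero_le _)⟩
    (fun r => r = 0)]
  · rw [Finset.sum_ite_eq' (range (m + 1)) 0, if_pos (mem_range.2 (Nat.succ_pos m))]
  · intro r _ hr
    refine ⟨Nat.zero_le _, fun b _ h => ?_⟩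
    rw [hr] at h
    rcases h with h | ⟨k, _, h, _⟩
    · exact e3 _ h
    · exact e3 _ h
  · intro a _ h
    have h1 := rw_le a
    have h2 := cw_le a
    constructor
    · by_contra h3
      refine h (cl m n (rw' a - 1) (cw a)) (mem_SS.2 (Nat.zero_le _)) (Or.inl ?_)
      rw [step_iff, rw_cl (by omega), cw_cl h2]
      omega
    · by_contra h3
      refine h (cl m n (rw' a) (cw a - 1)) (mem_SS.2 (Nat.zero_le _)) (Or.inl ?_)
      rw [step_iff, rw_cl h1, cw_cl (by omega)]
      omega

theorem N_eq_G (hp : IsPath p) : N p = G p 0 fun _ => 0 := by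
  rw [N_eq hp, ct_univ, G_pos (Fin.last (m + n))]
  rw [hp.2.1]
  refine Prod.ext (Fin.ext ?_) (Fin.ext ?_)
  · show m = m - 0
    omega
  · show n = n - 0
    omega

/-- no path is produced by more tableaux than the corner path -/
theorem N_le_corner {p q : Fin (m + n + 1) → Cell m n} (hp : IsPath p) (hq : IsPath q)
    (hc : ∃ k, q k = (Fin.last m, 0)) : N p ≤ N q := by
  rw [N_eq_G hp, N_eq_G hq]
  exact (Lib_helper36.GC7.bound m n (G p) (link_bound hp) 0 (fun _ => 0) (Nat.zero_le m)
    ⟨fun _ _ => Nat.zero_le n, fun _ _ => le_rfl⟩).trans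
    (Lib_helper36.GC7.corner m n (G q) (link_corner hq hc))

/-- the other corner path, by transposition -/
theorem N_le_corner' {p q : Fin (m + n + 1) → Cell m n} (hp : IsPath p) (hq : IsPath q)
    (hc : ∃ k, q k = (0, Fin.last n)) : N p ≤ N q := by
  obtain ⟨k, hk⟩ := hc
  have h : ∃ k, tp q k = (Fin.last n, 0) := by
    refine ⟨Fin.cast (len_eq n m) k, ?_⟩
    show (q (Fin.cast (len_eq m n) (Fin.cast (len_eq n m) k))).swap = _
    have e : Fin.cast (len_eq m n) (Fin.cast (len_eq n m) k) = k := rfl
    rw [e, hk]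
    rfl
  have h1 := N_le_corner (isPath_tp hp) (isPath_tp hq) h
  rw [N_tp, N_tp] at h1
  exact h1

/-- **Theorem.** Both corner paths have the maximal number of tableaux, in every box. -/
theorem main (m n : ℕ) (p p₁ p₂ : Fin (m + n + 1) → Cell m n)
    (hp : IsPath p) (hp₁ : IsPath p₁) (hp₂ : IsPath p₂)
    (h₁ : ∃ k, p₁ k = (0, Fin.last n)) (h₂ : ∃ k, p₂ k = (Fin.last m, 0)) :
    N p ≤ N p₁ ∧ N p ≤ N p₂ :=
  ⟨N_le_corner' hp hp₁ h₁, N_le_corner hp hp₂ h₂⟩

/-- the statement of the problem -/
theorem box (m n : ℕ) : BoxStatement m n := fun _ _ _ hp _ hp₂ _ h₂ =>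
  (N_le_corner hp hp₂ h₂).trans (le_max_right _ _)

end Pool.Agent.Lib_helper27.GC7
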