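import Pool.Agent.Lib_helper5.TC.LE
import Pool.Agent.Lib_helper5.TC.Defs
import Pool.Agent.Lib_helper36.GC7.Bound

/-!
# Removing the largest entries of a tableau which produces a given path

The cells of the box are read from its last cell: the cell `cl r c` is `(m - r, n - c)`. The set
`SS L` consists of the cells `cl r c` with `L r ≤ c`, so it is the box without a diagram with the
row lengths `L` in its last corner.
-/

set_option autoImplicit false

namespace Pool.Agent.Lib_helper27.GC7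

open Finset
open Pool.Agent.Lib_helper5.TC
open Pool.Agent.Lib_helper36.GC7 (up)

variable {m n : ℕ}

/-- row, read from the last cell -/
def rw' (a : Cell m n) : ℕ := m - a.1.val

/-- column, read from the last cell -/
def cw (a : Cell m n) : ℕ := n - a.2.val

/-- the cell in row `r` and column `c`, read from the last cell -/
def cl (m n r c : ℕ) : Cell m n := (⟨m - r, by omega⟩, ⟨n - c, by omega⟩)

theorem rw_le (a : Cell m n) : rw' a ≤ m := Nat.sub_le _ _

theorem cw_le (a : Cell m n) : cw a ≤ n := Nat.sub_le _ _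

theorem rw_cl {r c : ℕ} (h : r ≤ m) : rw' (cl m n r c) = r := by
  show m - (m - r) = r
  omega

theorem cw_cl {r c : ℕ} (h : c ≤ n) : cw (cl m n r c) = c := by
  show n - (n - c) = c
  omega

theorem cl_rw_cw (a : Cell m n) : cl m n (rw' a) (cw a) = a := by
  have h1 := a.1.isLt
  have h2 := a.2.isLt
  refine Prod.ext (Fin.ext ?_) (Fin.ext ?_)
  · show m - (m - a.1.val) = a.1.val
    omega
  · show n - (n - a.2.val) = a.2.val
    omega

theorem ext_rc {a b : Cell m n} (h1 : rw' a = rw' b) (h2 : cw a = cw b) : a = b := by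
  rw [← cl_rw_cw a, ← cl_rw_cw b, h1, h2]

/-- `b` is a step after `a`: read from the last cell, `a` is a step after `b` -/
theorem step_iff {a b : Cell m n} : Step a b ↔
    (rw' a = rw' b + 1 ∧ cw a = cw b) ∨ (rw' a = rw' b ∧ cw a = cw b + 1) := by
  unfold Step rw' cw
  have h1 := a.1.isLt
  have h2 := a.2.isLt
  have h3 := b.1.isLt
  have h4 := b.2.isLt
  omega

/-- `T a < T b` is needed -/
def rel (p : Fin (m + n + 1) → Cell m n) (a b : Cell m n) : Prop :=
  Step a b ∨ ∃ k : Fin (m + n), b = p k.castSucc ∧ Step a (p k.succ) ∧ a ≠ b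

/-- the cells outside of the diagram `L` -/
def SS (m n : ℕ) (L : ℕ → ℕ) : Finset (Cell m n) := univ.filter fun a => L (rw' a) ≤ cw a

theorem mem_SS {L : ℕ → ℕ} {a : Cell m n} : a ∈ SS m n L ↔ L (rw' a) ≤ cw a := by
  unfold SS
  rw [mem_filter]
  exact ⟨fun h => h.2, fun h => ⟨mem_univ _, h⟩⟩

theorem up_same (y : ℕ → ℕ) (r : ℕ) : up y r r = y r + 1 := if_pos rfl

theorem up_of_ne (y : ℕ → ℕ) {r s : ℕ} (h : s ≠ r) : up y r s = y s := if_neg h

theorem SS_up {L : ℕ → ℕ} {r : ℕ} (hr : r ≤ m) (hL : L r ≤ n) :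
    SS m n (up L r) = (SS m n L).erase (cl m n r (L r)) := by
  ext a
  rw [mem_erase, mem_SS, mem_SS]
  by_cases h : rw' a = r
  · rw [h, up_same]
    constructor
    · intro h1
      refine ⟨fun h2 => ?_, by omega⟩
      rw [h2, cw_cl hL] at h1
      omega
    · rintro ⟨h1, h2⟩
      by_contra h3
      have h4 : cw a = L r := by omega
      apply h1
      refine ext_rc ?_ ?_
      · rw [rw_cl hr, h]
      · rw [cw_cl hL, h4]
  · rw [up_of_ne L h]
    constructor
    · intro h1
      refine ⟨fun h2 => ?_, h1⟩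
      apply h
      rw [h2, rw_cl hr]
    · exact fun h1 => h1.2

/-- number of orders of the cells in `S` -/
noncomputable def ct (p : Fin (m + n + 1) → Cell m n) (S : Finset (Cell m n)) : ℕ := by
  classical
  exact cnt (rel p) S.card S

theorem ct_empty (p : Fin (m + n + 1) → Cell m n) : ct p ∅ = 1 := by
  classical
  unfold ct
  show cnt (rel p) (card ∅) ∅ = 1
  rw [card_empty]
  unfold cnt
  exact if_pos rfl

/-- a set of rows whose end cells are the maximal elements -/
theorem ct_eq {p : Fin (m + n + 1) → Cell m n} {L : ℕ → ℕ} (hS : (SS m n L).Nonempty)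
    (P : ℕ → Prop) [DecidablePred P]
    (hP : ∀ r, r ≤ m → P r → L r ≤ n ∧ ∀ b ∈ SS m n L, ¬ rel p (cl m n r (L r)) b)
    (hP' : ∀ a ∈ SS m n L, (∀ b ∈ SS m n L, ¬ rel p a b) → P (rw' a) ∧ cw a = L (rw' a)) :
    ct p (SS m n L) = ∑ r ∈ range (m + 1), if P r then ct p (SS m n (up L r)) else 0 := by
  classical
  obtain ⟨k, hk⟩ : ∃ k, (SS m n L).card = k + 1 :=
    Nat.exists_eq_add_one.2 (card_pos.2 hS)
  have h1 : ct p (SS m n L) = ∑ a ∈ (SS m n L).filter (fun a => ∀ b ∈ SS m n L, ¬ rel p a b),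
      ct p ((SS m n L).erase a) := by
    show cnt (rel p) (SS m n L).card (SS m n L) = _
    rw [hk]
    show ∑ a ∈ (SS m n L).filter (fun a => ∀ b ∈ SS m n L, ¬ rel p a b),
      cnt (rel p) k ((SS m n L).erase a) = _
    refine Finset.sum_congr rfl fun a ha => ?_
    rw [mem_filter] at ha
    show _ = cnt (rel p) ((SS m n L).erase a).card ((SS m n L).erase a)
    rw [card_erase_of_mem ha.1, hk, Nat.add_sub_cancel]
  rw [h1, ← Finset.sum_filter]
  refine Finset.sum_bij' (fun a _ => rw' a) (fun r _ => cl m n r (L r)) ?_ ?_ ?_ ?_ ?_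
  · intro a ha
    rw [mem_filter] at ha
    rw [mem_filter, mem_range]
    exact ⟨Nat.lt_succ_of_le (rw_le a), (hP' a ha.1 ha.2).1⟩
  · intro r hr
    rw [mem_filter, mem_range] at hr
    obtain ⟨h2, h3⟩ := hP r (Nat.le_of_lt_succ hr.1) hr.2
    rw [mem_filter, mem_SS, rw_cl (Nat.le_of_lt_succ hr.1), cw_cl h2]
    exact ⟨le_rfl, h3⟩
  · intro a ha
    rw [mem_filter] at ha
    rw [← (hP' a ha.1 ha.2).2, cl_rw_cw]
  · intro r hr
    rw [mem_filter, mem_range] at hr
    exact rw_cl (Nat.le_of_lt_succ hr.1)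
  · intro a ha
    rw [mem_filter] at ha
    have h2 := (hP' a ha.1 ha.2).2
    rw [SS_up (rw_le a) (h2 ▸ cw_le a), ← h2, cl_rw_cw]

end Pool.Agent.Lib_helper27.GC7
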