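import Pool.Agent.Lib_helper27.GC7.Star

/-!
# The number of tableaux which produce a path, as a recursion over star states

`y r` is the length of row `r` of the diagram, without the cell passed by the star if `r ≤ i`.
-/

set_option autoImplicit false

namespace Pool.Agent.Lib_helper27.GC7

open Finset
open Pool.Agent.Lib_helper5.TC
open Pool.Agent.Lib_helper36.GC7 (up Free Chain Full W)

variable {m n : ℕ} {p : Fin (m + n + 1) → Cell m n}

/-- the row lengths of the diagram with the star in row `i` -/
def lam (i : ℕ) (y : ℕ → ℕ) : ℕ → ℕ := fun r => y r + if r ≤ i then 1 else 0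

theorem lam_le {i r : ℕ} (y : ℕ → ℕ) (h : r ≤ i) : lam i y r = y r + 1 := by
  unfold lam
  rw [if_pos h]

theorem lam_gt {i r : ℕ} (y : ℕ → ℕ) (h : i < r) : lam i y r = y r := by
  unfold lam
  rw [if_neg (not_le.2 h), Nat.add_zero]

theorem lam_up (i : ℕ) (y : ℕ → ℕ) (r : ℕ) : lam i (up y r) = up (lam i y) r := by
  funext s
  by_cases h : s = r
  · subst h
    rw [up_same]
    by_cases h1 : s ≤ i
    · rw [lam_le _ h1, lam_le _ h1, up_same]
    · rw [lam_gt _ (not_le.1 h1), lam_gt _ (not_le.1 h1), up_same]
  · rw [up_of_ne _ h]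
    by_cases h1 : s ≤ i
    · rw [lam_le _ h1, lam_le _ h1, up_of_ne _ h]
    · rw [lam_gt _ (not_le.1 h1), lam_gt _ (not_le.1 h1), up_of_ne _ h]

theorem lam_succ (i : ℕ) (y : ℕ → ℕ) : lam (i + 1) y = up (lam i y) (i + 1) := by
  funext s
  by_cases h : s = i + 1
  · subst h
    rw [up_same, lam_le _ le_rfl, lam_gt _ (Nat.lt_succ_self i)]
  · rw [up_of_ne _ h]
    by_cases h1 : s ≤ i
    · rw [lam_le _ h1, lam_le _ (by omega)]
    · rw [lam_gt _ (not_le.1 h1), lam_gt _ (by omega)]

/-- number of ways to continue from a star state, `0` if the star is not on the path -/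
noncomputable def G (p : Fin (m + n + 1) → Cell m n) (i : ℕ) (y : ℕ → ℕ) : ℕ := by
  classical
  exact if ∃ k, p k = cl m n i (y i) then ct p (SS m n (lam i y)) else 0

theorem G_pos {i : ℕ} {y : ℕ → ℕ} (k : Fin (m + n + 1)) (h : p k = cl m n i (y i)) :
    G p i y = ct p (SS m n (lam i y)) := by
  unfold G
  exact if_pos ⟨k, h⟩

theorem G_neg {i : ℕ} {y : ℕ → ℕ} (h : ¬ ∃ k, p k = cl m n i (y i)) : G p i y = 0 := by
  unfold G
  exact if_neg h

theorem chain_le' {y : ℕ → ℕ} (h : Chain m n y) {r s : ℕ} (hrs : r ≤ s) (hs : s ≤ m) :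
    y s ≤ y r := chain_le h.2 hrs hs

/-- the star in the last cell of its way -/
theorem G_end {i : ℕ} {y : ℕ → ℕ} (hp : IsPath p) (hi : i ≤ m) (hy : Chain m n y)
    (h : p 0 = cl m n i (y i)) : G p i y = 1 ∧ i = m ∧ Full m n y := by
  have h1 := rc_sum hp 0
  have h2 := hy.1 i hi
  rw [h, rw_cl hi, cw_cl h2] at h1
  have h0 : (0 : Fin (m + n + 1)).val = 0 := rfl
  rw [h0] at h1
  have h3 : i = m := by omega
  have h4 : y i = n := by omega
  have h5 : Full m n y := by
    intro r hr
    have h6 := chain_le' hy (r := r) (s := i) (by omega) hi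
    have h7 := hy.1 r (by omega)
    omega
  refine ⟨?_, h3, h5⟩
  rw [G_pos 0 h]
  have h6 : SS m n (lam i y) = ∅ := by
    rw [Finset.eq_empty_iff_forall_notMem]
    intro a ha
    rw [mem_SS] at ha
    have h7 := rw_le a
    have h8 := cw_le a
    rw [lam_le _ (by omega), h5 _ (by omega)] at ha
    omega
  rw [h6, ct_empty]

theorem St_lam {k : Fin (m + n)} {i : ℕ} {y : ℕ → ℕ} (hi : i ≤ m) (hy : Chain m n y)
    (h : p k.succ = cl m n i (y i)) : St p k (lam i y) i (y i) where
  chain := by
    intro r hr
    have h1 := hy.2 r hr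
    by_cases h2 : r + 1 ≤ i
    · rw [lam_le _ h2, lam_le _ (by omega)]
      omega
    · rw [lam_gt _ (not_le.1 h2)]
      unfold lam
      omega
  le := by
    intro r hr
    have h1 := hy.1 r hr
    unfold lam
    split_ifs <;> omega
  star := h
  hi := hi
  hc := hy.1 i hi
  eq := lam_le _ le_rfl
  below := by
    intro h1
    rw [lam_gt _ (Nat.lt_succ_self i)]
    exact hy.2 i h1

/-- the path goes to the right from the star -/
theorem G_right {k : Fin (m + n)} {i : ℕ} {y : ℕ → ℕ} (hp : IsPath p) (hi : i ≤ m)
    (hy : Chain m n y) (h : p k.succ = cl m n i (y i)) (h1 : rw' (p k.castSucc) = i)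
    (h2 : cw (p k.castSucc) = y i + 1) :
    G p i y = ∑ r ∈ range (m + 1), if Free n y r then G p i (up y r) else 0 := by
  have hS := St_lam hi hy h
  rw [G_pos _ h, hS.ct_eq hp (Free n y)]
  · refine Finset.sum_congr rfl fun r hr => ?_
    rw [mem_range] at hr
    split_ifs with hf
    · by_cases hri : r = i
      · subst hri
        rw [G_pos k.castSucc, lam_up]
        rw [up_same, ← cl_rw_cw (p k.castSucc), h1, h2]
      · rw [G_pos k.succ, lam_up]
        rw [up_of_ne _ (Ne.symm hri), h]
    · rfl
  · intro r hr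
    have hyi := hy.1 i hi
    have hyr := hy.1 r hr
    have hst : Step (cl m n r (lam i y r)) (p k.succ) ↔
        lam i y r ≤ n ∧ ((r = i + 1 ∧ lam i y r = y i) ∨ (r = i ∧ lam i y r = y i + 1)) ∨
          n < lam i y r ∧ ((r = i + 1 ∧ n = y i) ∨ (r = i ∧ n = y i + 1)) := by
      rw [step_iff, h, rw_cl hr, rw_cl hi, cw_cl hyi]
      by_cases h3 : lam i y r ≤ n
      · rw [cw_cl h3]
        omega
      · have h4 : cw (cl m n r (lam i y r)) = n := by
          show n - (n - lam i y r) = n
          omega
        rw [h4]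
        omega
    have hne : lam i y r ≤ n → (cl m n r (lam i y r) ≠ p k.castSucc ↔
        ¬ (r = i ∧ lam i y r = y i + 1)) := by
      intro h3
      rw [Ne, not_iff_not]
      constructor
      · intro h4
        have h5 := congrArg rw' h4
        have h6 := congrArg cw h4
        rw [rw_cl hr, h1] at h5
        rw [cw_cl h3, h2] at h6
        exact ⟨h5, h6⟩
      · rintro ⟨h4, h5⟩
        refine ext_rc ?_ ?_
        · rw [rw_cl hr, h1, h4]
        · rw [cw_cl h3, h2, h5]
    unfold Free
    rcases lt_trichotomy r i with hr' | hr' | hr'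
    · rw [hst]
      rw [lam_le y hr'.le]
      rcases Nat.eq_zero_or_pos r with h0 | h0
      · omega
      · rw [lam_le y (show r - 1 ≤ i by omega)]
        omega
    · subst hr'
      constructor
      · rintro ⟨h3, h4⟩
        have h5 : lam r y r ≤ n := by
          rw [lam_le y le_rfl]
          omega
        refine ⟨h5, ?_, fun h6 => ?_⟩
        · rcases Nat.eq_zero_or_pos r with h0 | h0
          · exact Or.inl h0
          · right
            rw [lam_le y le_rfl, lam_le y (show r - 1 ≤ r by omega)]
            omega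
        · exact (hne h5).1 h6.2 ⟨rfl, lam_le y le_rfl⟩
      · rintro ⟨h3, h4, _⟩
        rw [lam_le y le_rfl] at h3 h4
        rw [lam_le y (show r - 1 ≤ r by omega)] at h4
        omega
    · have h3 : lam i y r = y r := lam_gt y hr'
      have h4 : lam i y r ≤ n := by rw [h3]; exact hyr
      rw [hst, hne h4, h3]
      rcases (Nat.succ_le_of_lt hr').eq_or_lt with h5 | h5
      · have h6 : r - 1 = i := by omega
        have h7 : lam i y (r - 1) = y i + 1 := by rw [h6, lam_le y le_rfl]
        have h8 := hy.2 i (by omega)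
        have h9 : i + 1 = r := h5
        rw [h9] at h8
        rw [h7, h6]
        omega
      · have h7 : lam i y (r - 1) = y (r - 1) := lam_gt y (by omega)
        have h8 := hy.1 (r - 1) (by omega)
        have h9 := hy.2 (r - 1) (by omega)
        have h10 : r - 1 + 1 = r := by omega
        rw [h10] at h9
        rw [h7]
        omega

/-- the path goes down from the star -/
theorem G_down {k : Fin (m + n)} {i : ℕ} {y : ℕ → ℕ} (hp : IsPath p) (hi : i ≤ m)
    (hy : Chain m n y) (h : p k.succ = cl m n i (y i)) (h1 : rw' (p k.castSucc) = i + 1)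
    (h2 : cw (p k.castSucc) = y i) :
    G p i y = (∑ r ∈ range (m + 1), if r ≠ i ∧ Free n y r then G p i (up y r) else 0) +
      if y (i + 1) = y i then G p (i + 1) y else 0 := by
  have hS := St_lam hi hy h
  have hi' : i < m := by
    have := rw_le (p k.castSucc)
    omega
  have hyi := hy.1 i hi
  have hy1 := hy.2 i hi'
  rw [G_pos _ h, hS.ct_eq hp (fun r => (r ≠ i ∧ Free n y r) ∨ (r = i + 1 ∧ y (i + 1) = y i))]
  · have h3 : ∀ r ∈ range (m + 1), (if (r ≠ i ∧ Free n y r) ∨ (r = i + 1 ∧ y (i + 1) = y i) then
        ct p (SS m n (up (lam i y) r)) else 0) =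
        (if r ≠ i ∧ Free n y r then G p i (up y r) else 0) +
          if r = i + 1 then (if y (i + 1) = y i then G p (i + 1) y else 0) else 0 := by
      intro r _
      by_cases h4 : r ≠ i ∧ Free n y r
      · rw [if_pos (Or.inl h4), if_pos h4, G_pos k.succ, lam_up]
        · by_cases h5 : r = i + 1
          · have h6 : ¬ y (i + 1) = y i := by
              have h7 := h4.2.2
              rw [h5, Nat.add_sub_cancel] at h7
              omega
            rw [if_pos h5, if_neg h6, Nat.add_zero]
          · rw [if_neg h5, Nat.add_zero]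
        · rw [up_of_ne _ (Ne.symm h4.1), h]
      · rw [if_neg h4, Nat.zero_add]
        by_cases h5 : r = i + 1
        · by_cases h6 : y (i + 1) = y i
          · rw [if_pos (Or.inr ⟨h5, h6⟩), if_pos h5, if_pos h6, G_pos k.castSucc, lam_succ, h5]
            rw [← cl_rw_cw (p k.castSucc), h1, h2, h6]
          · rw [if_neg (by tauto), if_pos h5, if_neg h6]
        · rw [if_neg (by tauto), if_neg h5]
    rw [Finset.sum_congr rfl h3, Finset.sum_add_distrib]
    congr 1
    rw [Finset.sum_ite_eq' (range (m + 1)) (i + 1), if_pos (mem_range.2 (by omega))]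
  · intro r hr
    have hyr := hy.1 r hr
    have hst : Step (cl m n r (lam i y r)) (p k.succ) ↔
        lam i y r ≤ n ∧ ((r = i + 1 ∧ lam i y r = y i) ∨ (r = i ∧ lam i y r = y i + 1)) ∨
          n < lam i y r ∧ ((r = i + 1 ∧ n = y i) ∨ (r = i ∧ n = y i + 1)) := by
      rw [step_iff, h, rw_cl hr, rw_cl hi, cw_cl hyi]
      by_cases h3 : lam i y r ≤ n
      · rw [cw_cl h3]
        omega
      · have h4 : cw (cl m n r (lam i y r)) = n := by
          show n - (n - lam i y r) = n
          omega
        rw [h4]
        omega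
    have hne : lam i y r ≤ n → (cl m n r (lam i y r) ≠ p k.castSucc ↔
        ¬ (r = i + 1 ∧ lam i y r = y i)) := by
      intro h3
      rw [Ne, not_iff_not]
      constructor
      · intro h4
        have h5 := congrArg rw' h4
        have h6 := congrArg cw h4
        rw [rw_cl hr, h1] at h5
        rw [cw_cl h3, h2] at h6
        exact ⟨h5, h6⟩
      · rintro ⟨h4, h5⟩
        refine ext_rc ?_ ?_
        · rw [rw_cl hr, h1, h4]
        · rw [cw_cl h3, h2, h5]
    unfold Free
    rcases lt_trichotomy r i with hr' | hr' | hr'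
    · rw [hst]
      rw [lam_le y hr'.le]
      rcases Nat.eq_zero_or_pos r with h0 | h0
      · omega
      · rw [lam_le y (show r - 1 ≤ i by omega)]
        omega
    · subst hr'
      constructor
      · rintro (⟨h3, _⟩ | ⟨h3, _⟩)
        · exact absurd rfl h3
        · omega
      · rintro ⟨h3, _, h5⟩
        exfalso
        apply h5
        rw [hst, hne h3, lam_le y le_rfl]
        rw [lam_le y le_rfl] at h3
        omega
    · have h3 : lam i y r = y r := lam_gt y hr'
      have h4 : lam i y r ≤ n := by rw [h3]; exact hyr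
      rw [hst, hne h4, h3]
      rcases (Nat.succ_le_of_lt hr').eq_or_lt with h5 | h5
      · have h6 : r - 1 = i := by omega
        have h7 : lam i y (r - 1) = y i + 1 := by rw [h6, lam_le y le_rfl]
        have h9 : i + 1 = r := h5
        rw [h9] at hy1
        rw [h7, h6, h9]
        omega
      · have h7 : lam i y (r - 1) = y (r - 1) := lam_gt y (by omega)
        have h8 := hy.1 (r - 1) (by omega)
        have h9 := hy.2 (r - 1) (by omega)
        have h10 : r - 1 + 1 = r := by omega
        rw [h10] at h9
        rw [h7]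
        omega

end Pool.Agent.Lib_helper27.GC7
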