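import Pool.Agent.Lib_helper27.GC7.Grow

/-!
# The star on the path

A state is a diagram `L` (in the last corner of the box) with an end cell `(i, c)` on the path, the
star. The next cell of the path, on the way from the last cell to the first one, is not in `L`.
-/

set_option autoImplicit false

namespace Pool.Agent.Lib_helper27.GC7

open Finset
open Pool.Agent.Lib_helper5.TC
open Pool.Agent.Lib_helper36.GC7 (up)

variable {m n : ℕ} {p : Fin (m + n + 1) → Cell m n}

theorem rc_mono (hp : IsPath p) {j k : Fin (m + n + 1)} (h : j ≤ k) :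
    rw' (p k) ≤ rw' (p j) ∧ cw (p k) ≤ cw (p j) := by
  induction k using Fin.induction with
  | zero =>
    have : j = 0 := le_antisymm h (Fin.zero_le j)
    rw [this]
    exact ⟨le_rfl, le_rfl⟩
  | succ k ih =>
    rcases h.lt_or_eq with h1 | h1
    · have h2 := ih (Fin.le_castSucc_iff.2 h1)
      have h3 := step_iff.1 (hp.2.2 k)
      omega
    · rw [h1]
      exact ⟨le_rfl, le_rfl⟩

theorem rc_sum (hp : IsPath p) (k : Fin (m + n + 1)) : rw' (p k) + cw (p k) + k.val = m + n := by
  induction k using Fin.induction with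
  | zero =>
    rw [hp.1]
    show (m - 0) + (n - 0) + 0 = m + n
    omega
  | succ k ih =>
    have h3 := step_iff.1 (hp.2.2 k)
    rw [Fin.val_succ]
    rw [Fin.val_castSucc] at ih
    omega

/-- the diagram `L` and the star `p k.succ` -/
structure St (p : Fin (m + n + 1) → Cell m n) (k : Fin (m + n)) (L : ℕ → ℕ) (i c : ℕ) : Prop where
  chain : ∀ r, r < m → L (r + 1) ≤ L r
  le : ∀ r, r ≤ m → L r ≤ n + 1
  star : p k.succ = cl m n i c
  hi : i ≤ m
  hc : c ≤ n
  eq : L i = c + 1
  below : i < m → L (i + 1) ≤ c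

theorem chain_le {L : ℕ → ℕ} (h : ∀ r, r < m → L (r + 1) ≤ L r) {r s : ℕ} (hrs : r ≤ s)
    (hs : s ≤ m) : L s ≤ L r := by
  obtain ⟨d, rfl⟩ := Nat.exists_eq_add_of_le hrs
  clear hrs
  induction d with
  | zero => exact le_rfl
  | succ d ih =>
    have h1 := ih (by omega)
    have h2 := h (r + d) (by omega)
    have h3 : r + (d + 1) = r + d + 1 := by ring
    rw [h3]
    omega

theorem St.next {k : Fin (m + n)} {L : ℕ → ℕ} {i c : ℕ} (h : St p k L i c) (hp : IsPath p) :
    (rw' (p k.castSucc) = i + 1 ∧ cw (p k.castSucc) = c) ∨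
      (rw' (p k.castSucc) = i ∧ cw (p k.castSucc) = c + 1) := by
  have h1 := step_iff.1 (hp.2.2 k)
  rw [h.star, rw_cl h.hi, cw_cl h.hc] at h1
  exact h1

theorem St.mem_iff {k : Fin (m + n)} {L : ℕ → ℕ} {i c : ℕ} (h : St p k L i c) (hp : IsPath p)
    (j : Fin (m + n + 1)) : p j ∈ SS m n L ↔ j ≤ k.castSucc := by
  rw [mem_SS]
  constructor
  · intro h1
    by_contra h2
    have h3 : k.succ ≤ j := Fin.castSucc_lt_iff_succ_le.1 (not_le.1 h2)
    have h4 := rc_mono hp h3
    rw [h.star, rw_cl h.hi, cw_cl h.hc] at h4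
    have h5 := chain_le h.chain h4.1 h.hi
    rw [h.eq] at h5
    omega
  · intro h1
    have h2 := rc_mono hp h1
    have h3 := rw_le (p j)
    rcases h.next hp with h4 | h4
    · have h5 := chain_le h.chain (r := i + 1) (s := rw' (p j)) (by omega) h3
      have h6 := h.below (by omega)
      omega
    · have h5 := chain_le h.chain (r := i) (s := rw' (p j)) (by omega) h3
      rw [h.eq] at h5
      omega

/-- the rows whose end cell can be removed next -/
theorem St.ct_eq {k : Fin (m + n)} {L : ℕ → ℕ} {i c : ℕ} (h : St p k L i c) (hp : IsPath p)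
    (P : ℕ → Prop) [DecidablePred P]
    (hP : ∀ r, r ≤ m → (P r ↔ (L r ≤ n ∧ (r = 0 ∨ L r < L (r - 1)) ∧
      ¬ (Step (cl m n r (L r)) (p k.succ) ∧ cl m n r (L r) ≠ p k.castSucc)))) :
    ct p (SS m n L) = ∑ r ∈ range (m + 1), if P r then ct p (SS m n (up L r)) else 0 := by
  refine GC7.ct_eq ⟨p k.castSucc, (h.mem_iff hp _).2 le_rfl⟩ P ?_ ?_
  · intro r hr h1
    rw [hP r hr] at h1
    obtain ⟨h1, h2, h3⟩ := h1
    refine ⟨h1, ?_⟩
    have hst : ∀ b ∈ SS m n L, ¬ Step (cl m n r (L r)) b := by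
      intro b hb h4
      rw [mem_SS] at hb
      rw [step_iff, rw_cl hr, cw_cl h1] at h4
      rcases h4 with ⟨h5, h6⟩ | ⟨h5, h6⟩
      · have h7 : r - 1 = rw' b := by omega
        rw [h7] at h2
        omega
      · rw [← h5] at hb
        omega
    intro b hb h4
    rcases h4 with h4 | ⟨k', h4, h5, h6⟩
    · exact hst b hb h4
    · have h7 : ¬ k'.succ ≤ k.castSucc := by
        rw [← h.mem_iff hp]
        exact fun h8 => hst _ h8 h5
      rw [h4, h.mem_iff hp] at hb
      have h8 : k' = k := by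
        refine le_antisymm ?_ ?_
        · exact Fin.castSucc_le_castSucc_iff.1 hb
        · have h9 : k.castSucc < k'.succ := not_le.1 h7
          rw [Fin.lt_def, Fin.val_castSucc, Fin.val_succ] at h9
          rw [Fin.le_def]
          omega
      rw [h8] at h4 h5
      exact h3 ⟨h5, h4 ▸ h6⟩
  · intro a ha h1
    have h2 := mem_SS.1 ha
    have h3 : cw a = L (rw' a) := by
      by_contra h4
      have h5 := cw_le a
      have h6 : cl m n (rw' a) (cw a - 1) ∈ SS m n L := by
        rw [mem_SS, rw_cl (rw_le a), cw_cl (by omega)]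
        omega
      refine h1 _ h6 (Or.inl (step_iff.2 (Or.inr ?_)))
      rw [rw_cl (rw_le a), cw_cl (by omega)]
      exact ⟨rfl, by omega⟩
    refine ⟨?_, h3⟩
    rw [hP _ (rw_le a)]
    refine ⟨h3 ▸ cw_le a, ?_, ?_⟩
    · by_contra h4
      rw [not_or, not_lt] at h4
      have h5 := rw_le a
      have h6 : cl m n (rw' a - 1) (cw a) ∈ SS m n L := by
        rw [mem_SS, rw_cl (by omega), cw_cl (cw_le a)]
        omega
      refine h1 _ h6 (Or.inl (step_iff.2 (Or.inl ?_)))
      rw [rw_cl (by omega), cw_cl (cw_le a)]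
      exact ⟨by omega, rfl⟩
    · rw [← h3, cl_rw_cw]
      rintro ⟨h4, h5⟩
      exact h1 _ ((h.mem_iff hp _).2 le_rfl) (Or.inr ⟨k, rfl, h4, h5⟩)

end Pool.Agent.Lib_helper27.GC7
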